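import Pool.Agent.PX.Stmts

/-!
# Squad PX (`MP_b2b50d_lc`), row DLX: the dual derivations (edit of `Helper26_PW/DLT.lean`)
-/

set_option autoImplicit false

namespace Pool.Agent.PX.H41

open MvPolynomial
open Pool.Agent.RS (FF io)
open Pool.Agent.PW (dd JUN RR FG Robust VV Piv del eul Ph Zer Free)

/-- The entries of the inverse of a matrix of polynomials in the variables of `T`. -/
theorem inv_entries {E : Type} [Field E] {ρ : ℕ} (V : Matrix (Fin ρ) (Fin ρ) (MvPolynomial ℕ E))
    (T : Finset ℕ) (hV : ∀ b a, (V b a).vars ⊆ T)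
    (hdet : ((io E : MvPolynomial ℕ E →+* FF E).mapMatrix V).det ≠ 0) :
    ∃ Δ : MvPolynomial ℕ E, Δ ≠ 0 ∧ Δ.vars ⊆ T ∧ ∀ a b, ∃ n : MvPolynomial ℕ E,
      n.vars ⊆ T ∧ ((io E : MvPolynomial ℕ E →+* FF E).mapMatrix V)⁻¹ a b = io E n / io E Δ := by
  classical
  have mem : ∀ b a, V b a ∈ supported E (T : Set ℕ) := fun b a =>
    mem_supported.2 (Finset.coe_subset.2 (hV b a))
  let V' : Matrix (Fin ρ) (Fin ρ) (supported E (T : Set ℕ)) := Matrix.of fun b a => ⟨V b a, mem b a⟩
  let v : supported E (T : Set ℕ) →+* MvPolynomial ℕ E := (supported E (T : Set ℕ)).val.toRingHom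
  have hVV : v.mapMatrix V' = V := by
    ext1 b a
    rfl
  have hd : ((io E : MvPolynomial ℕ E →+* FF E).mapMatrix V).det = io E (v V'.det) := by
    rw [RingHom.map_det, hVV]
    exact (RingHom.map_det (io E : MvPolynomial ℕ E →+* FF E) V).symm
  refine ⟨v V'.det, ?_, ?_, fun a b => ⟨v (V'.adjugate a b), ?_, ?_⟩⟩
  · intro h0
    apply hdet
    rw [hd, h0, map_zero]
  · exact Finset.coe_subset.1 (mem_supported.1 V'.det.2)
  · exact Finset.coe_subset.1 (mem_supported.1 (V'.adjugate a b).2)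
  · rw [Matrix.inv_def, Ring.inverse_eq_inv', Matrix.smul_apply, smul_eq_mul, hd, div_eq_inv_mul]
    congr 1
    rw [← RingHom.map_adjugate]
    change io E (V.adjugate a b) = io E (v (V'.adjugate a b))
    rw [← hVV, ← RingHom.map_adjugate]
    rfl

/-- Row DLX. -/
theorem dlx : DlxStmt := by
  classical
  intro E _ ρ y z hz
  have hVV : VV y z = (io E : MvPolynomial ℕ E →+* FF E).mapMatrix
      (Matrix.of fun b a => pderiv (z b) (y a)) := by
    ext1 b a
    rfl
  refine ⟨fun a a' => ?_, fun T hT => ?_⟩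
  · have h1 : ((VV y z)⁻¹ * VV y z) a a' = del y z a (io E (y a')) := by
      have hsum : ∀ (s : Finset (Fin ρ)) (D : Fin ρ → Derivation E (FF E) (FF E)) (w : FF E),
          (∑ b ∈ s, D b) w = ∑ b ∈ s, D b w := by
        intro s D w
        induction s using Finset.induction_on with
        | empty => rfl
        | insert b s hb ih => rw [Finset.sum_insert hb, Finset.sum_insert hb, Derivation.add_apply, ih]
      rw [Matrix.mul_apply, del, hsum]
      refine Finset.sum_congr rfl fun b _ => ?_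
      rw [Derivation.smul_apply, smul_eq_mul, (Pool.Agent.PW.aDer E).1]
      rfl
    rw [← h1, Matrix.nonsing_inv_mul _ (isUnit_iff_ne_zero.2 hz.2), Matrix.one_apply]
  · rw [hVV]
    refine inv_entries _ _ (fun b a => ?_) (hVV ▸ hz.2)
    change (pderiv (z b) (y a)).vars ⊆ _
    exact hT a b

end Pool.Agent.PX.H41
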