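import Pool.Agent.PX.Stmts

set_option autoImplicit false

/-!
# Squad PX, row DFX: the dual derivations and the filtration (edit of `Helper68_PW/DFI.lean`)
-/

namespace Pool.Agent.PX.H41

open MvPolynomial
open Pool.Agent.RS (FF io)
open Pool.Agent.PW (dd JUN RR FG Robust VV Piv del eul Ph Zer Free)

theorem filt_zero_of {E : Type} [Field E] {ρ c0 k : ℕ} {y : Fin ρ → MvPolynomial ℕ E}
    {J1 : Finset ℕ} {Fi : ℕ → FF E → Prop} (hF : Filt c0 k y J1 Fi) :
    ∀ (j l : ℕ) (w : FF E), Fi (j + l) w → Fi j w := by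
  intro j l
  induction l with
  | zero => intro w h; simpa using h
  | succ l ih => intro w h; exact ih w (hF.mono _ _ (by simpa [add_assoc] using h))

theorem filt_sum {E : Type} [Field E] {ρ c0 k : ℕ} {y : Fin ρ → MvPolynomial ℕ E}
    {J1 : Finset ℕ} {Fi : ℕ → FF E → Prop} (hF : Filt c0 k y J1 Fi) (j : ℕ)
    {ι : Type} (s : Finset ι) (f : ι → FF E) (h : ∀ i ∈ s, Fi j (f i)) :
    Fi j (∑ i ∈ s, f i) := by
  classical
  induction s using Finset.induction_on with
  | empty => simpa using hF.zero j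
  | insert a s ha ih =>
    rw [Finset.sum_insert ha]
    exact hF.add _ _ _ (h a (Finset.mem_insert_self a s))
      (ih fun i hi => h i (Finset.mem_insert_of_mem hi))

theorem filt_mul_left {E : Type} [Field E] {ρ c0 k : ℕ} {y : Fin ρ → MvPolynomial ℕ E}
    {J1 : Finset ℕ} {Fi : ℕ → FF E → Prop} (hF : Filt c0 k y J1 Fi) (j : ℕ) (v w : FF E)
    (hv : Fi 0 v) (hw : Fi j w) : Fi j (v * w) := by
  have := hF.mul 0 j v w hv hw
  rwa [Nat.zero_add] at this

/-- ROW DFX. -/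
theorem dfx (hDLX : DlxStmt) : DfxStmt := by
  intro E _ _ ρ c0 k y J1 z Fi hz hzJ hvJ hF
  obtain ⟨-, hT⟩ := hDLX E ρ y z hz
  obtain ⟨Δ, hΔ0, hΔv, hn⟩ := hT J1 hvJ
  have hV : ∀ a b, Fi 0 ((VV y z)⁻¹ a b) := by
    intro a b
    obtain ⟨n, hnv, hnab⟩ := hn a b
    rw [hnab, div_eq_mul_inv]
    exact filt_mul_left hF 0 _ _ (hF.poly n) (hF.unitJ Δ hΔ0 hΔv)
  have hdel : ∀ a w, del y z a w = ∑ b, (VV y z)⁻¹ a b * dd (z b) w := by
    intro a w
    have h1 := map_sum (Derivation.coeFnAddMonoidHom : Derivation E (FF E) (FF E) →+ (FF E → FF E))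
      (fun b => (VV y z)⁻¹ a b • dd (z b)) Finset.univ
    have h2 := congrFun h1 w
    rw [Finset.sum_apply] at h2
    refine h2.trans (Finset.sum_congr rfl fun b _ => ?_)
    change ((VV y z)⁻¹ a b • dd (z b)) w = _
    rw [Derivation.smul_apply, smul_eq_mul]
  constructor
  · intro a w hw
    rw [hdel]
    exact filt_sum hF 0 _ _ fun b _ => filt_mul_left hF 0 _ _ (hV a b) (hF.der0 _ (hzJ b) _ hw)
  · intro a j w hw
    rw [hdel]
    exact filt_sum hF j _ _ fun b _ => filt_mul_left hF j _ _ (hV a b) (hF.der _ (hzJ b) j _ hw)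

end Pool.Agent.PX.H41
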